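import Pool.Agent.Helper509.SD.Final

set_option autoImplicit false

namespace Pool.Agent.Results.MP_80a07b_an.ReflexiveFinite

universe u v

/-- `G` is discrete in the strong operator topology: every `g ∈ G` has a basic neighbourhood
`{h : ‖h x - g x‖ < δ for all x ∈ s}` (`s` a finite set of vectors) containing no other element
of `G`. -/
def SOTDiscrete {𝕜 : Type u} {X : Type v} [RCLike 𝕜] [NormedAddCommGroup X] [NormedSpace 𝕜 X]
    (G : Subgroup (X →L[𝕜] X)ˣ) : Prop :=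
  ∀ g ∈ G, ∃ s : Finset X, ∃ δ : ℝ, 0 < δ ∧
    ∀ h ∈ G, (∀ x ∈ s, ‖(h : X →L[𝕜] X) x - (g : X →L[𝕜] X) x‖ < δ) → h = g

/-- On a reflexive space, real or complex, every bounded SOT-discrete group of invertible operators
whose elements are compact perturbations `ε Id + K` of scalars of modulus one is finite. -/
theorem result {𝕜 : Type u} {X : Type v} [RCLike 𝕜] [NormedAddCommGroup X] [NormedSpace 𝕜 X]
    (hrefl : Function.Surjective (NormedSpace.inclusionInDoubleDual 𝕜 X))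
    (G : Subgroup (X →L[𝕜] X)ˣ)
    (hbdd : ∃ C : ℝ, ∀ g ∈ G, ‖(g : X →L[𝕜] X)‖ ≤ C)
    (hpert : ∀ g ∈ G, ∃ ε : 𝕜, ‖ε‖ = 1 ∧
      IsCompactOperator ((g : X →L[𝕜] X) - ε • (1 : X →L[𝕜] X)))
    (hdisc : SOTDiscrete G) : (G : Set (X →L[𝕜] X)ˣ).Finite := by
  by_contra hinf
  obtain ⟨C, hC⟩ := hbdd
  obtain ⟨s, δ, hδ, hs⟩ := hdisc 1 (one_mem G)
  obtain ⟨g, hg, hg1, hgs⟩ := Pool.Agent.Helper509.SD.exists_near_one (𝕜 := 𝕜) (fun φ => by
    obtain ⟨x, hx⟩ := hrefl φ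
    exact ⟨x, fun f => by rw [← hx]; rfl⟩) G hinf hC hpert s hδ
  exact hg1 (hs g hg hgs)

end Pool.Agent.Results.MP_80a07b_an.ReflexiveFinite
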